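import Pool.Agent.Helper36.WL.REDW

/-!
NRMW: the coefficients of the forms of a curve over a line are integral.
-/

set_option autoImplicit false

namespace Pool.Agent.Helper36.WL

open Pool.Agent.Helper23.WC MvPolynomial

theorem scale_eval {R : Type} [CommRing R] {τ : Type} (w : τ → ℕ) (H : MvPolynomial τ R) (D : ℕ)
    (hH : IsWeightedHomogeneous w H D) (t : R) (p : τ → R) :
    eval (fun v => t ^ (w v) * p v) H = t ^ D * eval p H := by
  rw [eval_eq, eval_eq, Finset.mul_sum]
  refine Finset.sum_congr rfl fun d hd => ?_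
  have h1 := hH (mem_support_iff.1 hd)
  have h2 : ∏ i ∈ d.support, (t ^ (w i) * p i) ^ d i = t ^ D * ∏ i ∈ d.support, p i ^ d i := by
    simp only [mul_pow, Finset.prod_mul_distrib]
    congr 1
    simp only [← pow_mul]
    rw [Finset.prod_pow_eq_pow_sum, ← h1, Finsupp.weight_apply, Finsupp.sum]
    congr 1
    refine Finset.sum_congr rfl fun i _ => ?_
    rw [smul_eq_mul, mul_comm]
  rw [h2]
  ring

theorem bf_scale {R : Type} [CommRing R] (d : ℕ) (c : ℕ → R) (u x y : R) :
    bf d (fun l => u * c l) x y = u * bf d c x y := by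
  unfold bf
  rw [Finset.mul_sum]
  refine Finset.sum_congr rfl fun l _ => ?_
  ring

theorem bf_zero {L : Type} [Field L] [Infinite L] (d : ℕ) (c : ℕ → L)
    (h : ∀ x : L, bf d c x 1 = 0) : ∀ l, l ≤ d → c l = 0 := by
  intro l hl
  set q : Polynomial L := ∑ l ∈ Finset.range (d + 1), Polynomial.C (c l) * Polynomial.X ^ l with hq
  have h1 : q = 0 := by
    apply Polynomial.funext
    intro x
    have h2 := h x
    unfold bf at h2
    simp only [one_pow, mul_one] at h2
    rw [hq, Polynomial.eval_finsetSum, Polynomial.eval_zero, ← h2]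
    refine Finset.sum_congr rfl fun l _ => ?_
    simp
  have h3 : q.coeff l = c l := by
    rw [hq, Polynomial.finset_sum_coeff]
    simp only [Polynomial.coeff_C_mul_X_pow]
    rw [Finset.sum_ite_eq]
    rw [if_pos (Finset.mem_range.2 (Nat.lt_succ_of_le hl))]
  rw [← h3, h1, Polynomial.coeff_zero]

theorem NRMW.main (hTRF : St_TRF) : St_NRMW := by
  classical
  intro K Ω _ _ _ _ _ _ O n r s e D H F P Q c he hD hHh hFh hF0 hK hHF hPQ hline i1 l1 hl1
  by_contra hcon
  -- the maximal term
  set v := O.valuation with hv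
  set E : ℕ := ∏ i, e i with hE
  have hEpos : 0 < E := Finset.prod_pos fun i _ => he i
  have hdvd : ∀ i, e i ∣ E := fun i => Finset.dvd_prod_of_mem e (Finset.mem_univ i)
  set S : Finset (Σ _ : Fin r, ℕ) := Finset.univ.sigma fun i => Finset.range (e i + 1) with hS
  have hmemS : ∀ i l, (⟨i, l⟩ : Σ _ : Fin r, ℕ) ∈ S ↔ l ≤ e i := by
    intro i l
    rw [hS, Finset.mem_sigma]
    simp [Nat.lt_succ_iff]
  obtain ⟨⟨i0, l0⟩, hm, hmax⟩ := S.exists_max_image (fun a => v (c a.1 a.2) ^ (E / e a.1))
    ⟨⟨i1, l1⟩, (hmemS _ _).2 hl1⟩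
  have hl0 : l0 ≤ e i0 := (hmemS _ _).1 hm
  have hv1 : 1 < v (c i1 l1) := by
    by_contra h
    exact hcon (O.mem_of_valuation_le_one _ (not_lt.1 h))
  have hq : ∀ i, E / e i ≠ 0 := fun i =>
    (Nat.div_pos (Nat.le_of_dvd hEpos (hdvd i)) (he i)).ne'
  have hv0 : 1 < v (c i0 l0) := by
    by_contra h
    have h1 := hmax ⟨i1, l1⟩ ((hmemS _ _).2 hl1)
    have h2 : v (c i0 l0) ^ (E / e i0) ≤ 1 := pow_le_one' (not_lt.1 h) _
    have h3 : 1 < v (c i1 l1) ^ (E / e i1) := one_lt_pow' hv1 (hq i1)
    exact absurd (h3.trans_le (h1.trans h2)) (lt_irrefl _)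
  obtain ⟨lam, hlam⟩ := IsAlgClosed.exists_pow_nat_eq (c i0 l0) (he i0)
  have hvl : 1 < v lam := by
    by_contra h
    have h2 : v lam ^ (e i0) ≤ 1 := pow_le_one' (not_lt.1 h) _
    rw [← map_pow, hlam] at h2
    exact absurd (hv0.trans_le h2) (lt_irrefl _)
  have hlam0 : lam ≠ 0 := by
    rintro rfl
    rw [map_zero] at hvl
    exact absurd hvl (not_lt.2 zero_le_one)
  have hle : ∀ i l, l ≤ e i → v (c i l) ≤ v lam ^ (e i) := by
    intro i l hl
    by_contra h
    have h1 := hmax ⟨i, l⟩ ((hmemS _ _).2 hl)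
    have h2 : (v lam ^ (e i)) ^ (E / e i) < v (c i l) ^ (E / e i) :=
      pow_lt_pow_left₀ (not_le.1 h) zero_le (hq i)
    rw [← pow_mul, Nat.mul_div_cancel' (hdvd i)] at h2
    have h3 := h2.trans_le h1
    simp only at h3
    rw [← hlam, map_pow, ← pow_mul, Nat.mul_div_cancel' (hdvd i0)] at h3
    exact absurd h3 (lt_irrefl _)
  -- the scaled curve
  set t : Ω := lam⁻¹ with ht
  have hvt : v t < 1 := by
    rw [ht, map_inv₀]
    exact inv_lt_one_of_one_lt₀ hvl
  have htO : t ∈ O := O.mem_of_valuation_le_one _ hvt.le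
  have hcO' : ∀ i l, l ≤ e i → t ^ (e i) * c i l ∈ O := by
    intro i l hl
    apply O.mem_of_valuation_le_one
    rw [map_mul, map_pow, ht, map_inv₀, inv_pow]
    have h0 : v lam ^ (e i) ≠ 0 := pow_ne_zero _ ((Valuation.ne_zero_iff _).2 hlam0)
    calc (v lam ^ (e i))⁻¹ * v (c i l) ≤ (v lam ^ (e i))⁻¹ * v lam ^ (e i) := by
          gcongr
          exact hle i l hl
      _ = 1 := inv_mul_cancel₀ h0
  obtain ⟨G, hG1, hG2⟩ := lifts O H F hK hHF
  set κ : K →+* O := (algebraMap K Ω).codRestrict O.toSubring hK with hκ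
  set π : O →+* IsLocalRing.ResidueField O := IsLocalRing.residue O with hπ
  let alg : Algebra K (IsLocalRing.ResidueField O) := (π.comp κ).toAlgebra
  have hinf : Infinite (IsLocalRing.ResidueField O) :=
    Infinite.of_injective _ (π.comp κ).injective
  set PO : Fin (n + 1) → O := fun l => ⟨P l, (hPQ l).1⟩ with hPO
  set QO : Fin (n + 1) → O := fun l => ⟨Q l, (hPQ l).2⟩ with hQO
  set tO : O := ⟨t, htO⟩ with htO'
  set cO : Fin r → ℕ → O := fun i l =>
    if h : l ≤ e i then ⟨t ^ (e i) * c i l, hcO' i l h⟩ else 0 with hcO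
  have hπt : π tO = 0 := by
    rw [hπ, IsLocalRing.residue_eq_zero_iff, O.valuation_lt_one_iff]
    exact hvt
  have hkey : ∀ x y : O, ∀ j, eval (Sum.elim (0 : Fin (n + 1) → IsLocalRing.ResidueField O)
      fun i => bf (e i) (fun l => π (cO i l)) (π x) (π y)) (map (π.comp κ) (F j)) = 0 := by
    intro x y a
    have h0 := red_zero O (H a) (F a) (G a) (π.comp κ) (hG1 a) (hG2 a)
      (Sum.elim (fun l => tO * (x * PO l + y * QO l)) fun i => bf (e i) (cO i) x y) (by
        have h1 := hline a (x : Ω) (y : Ω)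
        have h2 := scale_eval (wt e) (H a) (D a) (hHh a) t
          (Sum.elim (fun l => (x : Ω) * P l + y * Q l) fun i => bf (e i) (c i) (x : Ω) y)
        rw [h1, mul_zero] at h2
        rw [← h2]
        refine congrArg (fun t => MvPolynomial.eval t (H a)) ?_
        funext l
        rcases l with l | l
        · simp only [wt, Sum.elim_inl, pow_one]
          rfl
        · simp only [wt, Sum.elim_inr]
          rw [coe_bf, ← bf_scale]
          apply bf_congr
          intro l' hl'
          simp only [hcO, dif_pos hl'])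
    have h2 : (fun l => IsLocalRing.residue O ((Sum.elim (fun l => tO * (x * PO l + y * QO l))
        fun i => bf (e i) (cO i) x y : Fin (n + 1) ⊕ Fin r → O) l)) =
        Sum.elim (0 : Fin (n + 1) → IsLocalRing.ResidueField O)
          fun i => bf (e i) (fun l => π (cO i l)) (π x) (π y) := by
      funext l
      rcases l with l | l
      · simp only [Sum.elim_inl, map_mul, Pi.zero_apply]
        rw [← hπ, hπt, zero_mul]
      · simp only [Sum.elim_inr]
        exact map_bf _ _ _ _ _
    rw [h2] at h0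
    exact h0
  have hfin := hTRF K (IsLocalRing.ResidueField O) n r s F hF0
  have hzero : ∀ x y : O, ∀ i, bf (e i) (fun l => π (cO i l)) (π x) (π y) = 0 := by
    intro x y i
    exact congrFun (hfin _ (hkey x y)) i
  have h1 := bf_zero (e i0) (fun l => π (cO i0 l)) (by
    intro x
    obtain ⟨x, rfl⟩ := IsLocalRing.residue_surjective x
    have := hzero x 1 i0
    rw [map_one] at this
    exact this) l0 hl0
  have h2 : cO i0 l0 = 1 := by
    simp only [hcO, dif_pos hl0]
    apply Subtype.ext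
    simp only [ht, inv_pow, hlam]
    rw [inv_mul_cancel₀]
    · rfl
    · rw [← hlam]; exact pow_ne_zero _ hlam0
  rw [h2, map_one] at h1
  exact one_ne_zero h1

end Pool.Agent.Helper36.WL
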