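import Pool.Agent.Helper23.WC.Spec

/-!
REDW: reduction of a curve over a line modulo the maximal ideal of a valuation ring.
-/

set_option autoImplicit false

namespace Pool.Agent.Helper36.WL

open Pool.Agent.Helper23.WC MvPolynomial

theorem coe_eval {Ω : Type} [Field Ω] (O : ValuationSubring Ω) {τ : Type} (p : τ → O)
    (G : MvPolynomial τ O) :
    ((eval p G : O) : Ω) = eval (fun l => (p l : Ω)) (map O.subtype G) := by
  rw [eval_map]
  exact eval₂_comp_left O.subtype (RingHom.id O) p G

/-- Lifts of the equations to the valuation ring. -/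
theorem lifts {K Ω : Type} [Field K] [Field Ω] [Algebra K Ω] (O : ValuationSubring Ω)
    {τ : Type} {s : ℕ} (H : Fin s → MvPolynomial τ Ω) (F : Fin s → MvPolynomial τ K)
    (hK : ∀ c : K, algebraMap K Ω c ∈ O)
    (hHF : ∀ j I, O.valuation (coeff I (H j) - algebraMap K Ω (coeff I (F j))) < 1) :
    ∃ G : Fin s → MvPolynomial τ O, (∀ j, map O.subtype (G j) = H j) ∧
      ∀ j, map (IsLocalRing.residue O) (G j) =
        map ((IsLocalRing.residue O).comp ((algebraMap K Ω).codRestrict O.toSubring hK)) (F j) := by
  have hHO : ∀ t, ∃ G : MvPolynomial τ O, map O.subtype G = H t := by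
    intro t
    have : H t ∈ Set.range (map (σ := τ) O.subtype) := by
      rw [mem_range_map_iff_coeffs_subset]
      intro y hy
      obtain ⟨I, hI, rfl⟩ := mem_coeffs_iff.1 hy
      have h1 := O.mem_of_valuation_le_one _ (hHF t I).le
      have h2 := O.add_mem _ _ h1 (hK (coeff I (F t)))
      rw [sub_add_cancel] at h2
      exact ⟨⟨_, h2⟩, rfl⟩
    exact this
  choose G hG using hHO
  refine ⟨G, hG, fun t => ?_⟩
  ext I
  rw [coeff_map, coeff_map, RingHom.comp_apply, ← sub_eq_zero, ← map_sub,
    IsLocalRing.residue_eq_zero_iff, O.valuation_lt_one_iff]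
  have h1 := hHF t I
  rw [← hG t, coeff_map] at h1
  exact h1

theorem coe_bf {Ω : Type} [Field Ω] (O : ValuationSubring Ω) (d : ℕ) (c : ℕ → O) (x y : O) :
    ((bf d c x y : O) : Ω) = bf d (fun l => (c l : Ω)) (x : Ω) (y : Ω) := by
  unfold bf
  rw [← O.subtype_apply, map_sum]
  refine Finset.sum_congr rfl fun l _ => ?_
  simp only [map_mul, map_pow]
  rfl

theorem map_bf {R S : Type} [CommRing R] [CommRing S] (φ : R →+* S) (d : ℕ) (c : ℕ → R) (x y : R) :
    φ (bf d c x y) = bf d (fun l => φ (c l)) (φ x) (φ y) := by
  unfold bf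
  rw [map_sum]
  refine Finset.sum_congr rfl fun l _ => ?_
  simp only [map_mul, map_pow]

theorem bf_congr {R : Type} [CommRing R] {d : ℕ} {c c' : ℕ → R} (h : ∀ l ≤ d, c l = c' l)
    (x y : R) : bf d c x y = bf d c' x y := by
  unfold bf
  refine Finset.sum_congr rfl fun l hl => ?_
  rw [h l (Nat.lt_succ_iff.1 (Finset.mem_range.1 hl))]

/-- If the equations vanish at a point with coordinates in the valuation ring, then the reduced
equations vanish at the reduced point. -/
theorem red_zero {K Ω : Type} [Field K] [Field Ω] [Algebra K Ω] (O : ValuationSubring Ω)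
    {τ : Type} (H : MvPolynomial τ Ω) (F : MvPolynomial τ K) (G : MvPolynomial τ O)
    (ρ : K →+* IsLocalRing.ResidueField O)
    (h1 : map O.subtype G = H) (h2 : map (IsLocalRing.residue O) G = map ρ F)
    (p : τ → O) (h : eval (fun l => (p l : Ω)) H = 0) :
    eval (fun l => IsLocalRing.residue O (p l)) (map ρ F) = 0 := by
  rw [← h2, eval_map]
  have h3 : eval p G = 0 := by
    apply O.subtype_injective
    rw [map_zero, O.subtype_apply, coe_eval, h1]
    exact h
  have h4 : IsLocalRing.residue O (eval p G) =
      eval₂ (IsLocalRing.residue O) (fun l => IsLocalRing.residue O (p l)) G :=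
    eval₂_comp_left (IsLocalRing.residue O) (RingHom.id O) _ _
  rw [← h4, h3, map_zero]

theorem REDW.main : St_REDW := by
  classical
  intro K Ω _ _ _ _ O n r s e H F P Q i j c hK hHF hPQ hPi hPj hQi hQj hc hline
  obtain ⟨G, hG1, hG2⟩ := lifts O H F hK hHF
  set κ : K →+* O := (algebraMap K Ω).codRestrict O.toSubring hK with hκ
  set π : O →+* IsLocalRing.ResidueField O := IsLocalRing.residue O with hπ
  let alg : Algebra K (IsLocalRing.ResidueField O) := (π.comp κ).toAlgebra
  set PO : Fin (n + 1) → O := fun l => ⟨P l, (hPQ l).1⟩ with hPO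
  set QO : Fin (n + 1) → O := fun l => ⟨Q l, (hPQ l).2⟩ with hQO
  set cO : Fin r → ℕ → O := fun i l => if h : l ≤ e i then ⟨c i l, hc i l h⟩ else 0 with hcO
  refine ⟨IsLocalRing.ResidueField O, inferInstance, alg, fun l => π (PO l), fun l => π (QO l), i, j,
    fun i l => π (cO i l), ?_, ?_, ?_, ?_, ?_⟩
  · have : PO i = 1 := Subtype.ext hPi
    simp only [this, map_one]
  · have : PO j = 0 := Subtype.ext hPj
    simp only [this, map_zero]
  · have : QO i = 0 := Subtype.ext hQi
    simp only [this, map_zero]
  · have : QO j = 1 := Subtype.ext hQj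
    simp only [this, map_one]
  · intro a x y
    obtain ⟨x, rfl⟩ := IsLocalRing.residue_surjective x
    obtain ⟨y, rfl⟩ := IsLocalRing.residue_surjective y
    have h0 := red_zero O (H a) (F a) (G a) (π.comp κ) (hG1 a) (hG2 a)
      (Sum.elim (fun l => x * PO l + y * QO l) fun i => bf (e i) (cO i) x y) (by
        have h1 := hline a (x : Ω) (y : Ω)
        rw [← h1]
        refine congrArg (fun t => MvPolynomial.eval t (H a)) ?_
        funext l
        rcases l with l | l
        · rfl
        · simp only [Sum.elim_inr]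
          rw [coe_bf]
          apply bf_congr
          intro l' hl'
          simp only [hcO, dif_pos hl'])
    have h2 : (fun l => IsLocalRing.residue O ((Sum.elim (fun l => x * PO l + y * QO l)
        fun i => bf (e i) (cO i) x y : Fin (n + 1) ⊕ Fin r → O) l)) =
        Sum.elim (fun l => IsLocalRing.residue O x * π (PO l) + IsLocalRing.residue O y * π (QO l))
          fun i => bf (e i) (fun l => π (cO i l)) (IsLocalRing.residue O x)
            (IsLocalRing.residue O y) := by
      funext l
      rcases l with l | l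
      · simp only [Sum.elim_inl, map_add, map_mul]
        rfl
      · simp only [Sum.elim_inr]
        exact map_bf _ _ _ _ _
    rw [h2, eval_map] at h0
    exact h0

end Pool.Agent.Helper36.WL
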